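import Mathlib

set_option autoImplicit false

/-!
# A self-similar polygonal tiling that is not obtained from a generating pair
-/

namespace Pool.Agent.Results.MP_4b3b27_co.NotFromPairs

/-- The Euclidean plane. -/
abbrev Plane : Type := EuclideanSpace ℝ (Fin 2)

/-- The bijection `f` of the plane is a similitude with scaling ratio `r`. -/
def HasRatio (f : Equiv.Perm Plane) (r : ℝ) : Prop :=
  0 < r ∧ ∀ x y, dist (f x) (f y) = r * dist x y

/-- A closed polygon: a compact set with nonempty interior whose boundary is the union of the sides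
of a closed polygonal curve, the sides meeting only at vertices. -/
def IsPolygon (p : Set Plane) : Prop :=
  IsCompact p ∧ (interior p).Nonempty ∧
    ∃ n : ℕ, 3 ≤ n ∧ ∃ v : ZMod n → Plane, Function.Injective v ∧
      frontier p = ⋃ i, segment ℝ (v i) (v (i + 1)) ∧
      ∀ i j, i ≠ j → segment ℝ (v i) (v (i + 1)) ∩ segment ℝ (v j) (v (j + 1)) ⊆
        {v i, v (i + 1)} ∩ {v j, v (j + 1)}

/-- A tiling: compact sets covering the plane, any two meeting only in boundary points. -/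
def IsTiling (T : Set (Set Plane)) : Prop :=
  (∀ t ∈ T, IsCompact t) ∧ ⋃₀ T = Set.univ ∧
    ∀ t ∈ T, ∀ t' ∈ T, t ≠ t' → t ∩ t' ⊆ frontier t ∩ frontier t'

/-- Finite order: finitely many tiles up to congruence. -/
def FiniteOrder (T : Set (Set Plane)) : Prop :=
  ∃ S : Set (Set Plane), S.Finite ∧ ∀ t ∈ T, ∃ t' ∈ S, ∃ g : Plane ≃ᵢ Plane, g '' t' = t

/-- A patch: a subset of the tiling whose union is a closed topological disk. -/
def IsPatch (T U : Set (Set Plane)) : Prop :=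
  U ⊆ T ∧ Nonempty (↥(⋃₀ U) ≃ₜ ↥(Metric.closedBall (0 : Plane) 1))

/-- Quasiperiodicity. -/
def Quasiperiodic (T : Set (Set Plane)) : Prop :=
  ∀ U, IsPatch T U → ∃ R : ℝ, 0 < R ∧ ∀ c : Plane, ∃ U', IsPatch T U' ∧
    (∃ g : Plane ≃ᵢ Plane, (fun t => g '' t) '' U = U') ∧ ⋃₀ U' ⊆ Metric.closedBall c R

/-- Self-similarity: a similitude of ratio greater than one maps each tile to a union of tiles. -/
def SelfSimilar (T : Set (Set Plane)) : Prop :=
  ∃ (φ : Equiv.Perm Plane) (r : ℝ), HasRatio φ r ∧ 1 < r ∧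
    ∀ t ∈ T, ∃ S : Set (Set Plane), S ⊆ T ∧ φ '' t = ⋃₀ S

/-- Self-similar polygonal tilings. -/
def SelfSimilarPolygonal (T : Set (Set Plane)) : Prop :=
  IsTiling T ∧ FiniteOrder T ∧ Quasiperiodic T ∧ SelfSimilar T ∧ (∀ t ∈ T, IsPolygon t) ∧
    ∀ t ∈ T, ∀ t' ∈ T, ∃ (g : Equiv.Perm Plane) (r : ℝ), HasRatio g r ∧ g '' t = t'

/-- A generating pair `(p, F)` with ratios `s ^ a n`. -/
structure GeneratingPair where
  p : Set Plane
  polygon : IsPolygon p
  N : ℕ
  two_le : 2 ≤ N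
  F : Fin N → Equiv.Perm Plane
  s : ℝ
  s_pos : 0 < s
  s_lt : s < 1
  a : Fin N → ℕ
  a_pos : ∀ n, 0 < a n
  gcd_eq : Finset.univ.gcd a = 1
  ratio : ∀ n, HasRatio (F n) (s ^ a n)
  union : p = ⋃ n, F n '' p
  disjoint : ∀ n m, n ≠ m → F n '' p ∩ F m '' p ⊆ frontier (F n '' p) ∩ frontier (F m '' p)

namespace GeneratingPair

variable (G : GeneratingPair)

/-- `e(σ)`, the sum of the exponents of a string. -/
def e (σ : List (Fin G.N)) : ℕ := (σ.map G.a).sum

/-- `e⁻(σ)`, the sum of the exponents without the last letter. -/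
def em (σ : List (Fin G.N)) : ℕ := G.e σ.dropLast

/-- `f_σ = f_{σ₁} ∘ ⋯ ∘ f_{σ_k}`. -/
def f (σ : List (Fin G.N)) : Equiv.Perm Plane := (σ.map G.F).prod

/-- `f_{-σ} = f_{σ₁}⁻¹ ∘ ⋯ ∘ f_{σ_k}⁻¹`. -/
def fneg (σ : List (Fin G.N)) : Equiv.Perm Plane := (σ.map (fun n => (G.F n)⁻¹)).prod

/-- The prefix `θ|k`. -/
def pre (θ : ℕ → Fin G.N) (k : ℕ) : List (Fin G.N) := (List.range k).map θ

/-- `T(θ,k)`. -/
def tilesAt (θ : ℕ → Fin G.N) (k : ℕ) : Set (Set Plane) :=
  {t | ∃ σ : List (Fin G.N), G.e (G.pre θ k) ≤ G.e σ ∧ G.em σ < G.e (G.pre θ k) ∧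
    t = (G.fneg (G.pre θ k) * G.f σ) '' G.p}

/-- `T(p,F,θ)`. -/
def tiling (θ : ℕ → Fin G.N) : Set (Set Plane) := ⋃ k ≥ 1, G.tilesAt θ k

end GeneratingPair

/-! ### Similitudes -/

theorem HasRatio.mul {f g : Equiv.Perm Plane} {r s : ℝ} (hf : HasRatio f r) (hg : HasRatio g s) :
    HasRatio (f * g) (r * s) :=
  ⟨mul_pos hf.1 hg.1, fun x y => by
    rw [Equiv.Perm.mul_apply, Equiv.Perm.mul_apply, hf.2, hg.2, mul_assoc]⟩

theorem HasRatio.inv {f : Equiv.Perm Plane} {r : ℝ} (hf : HasRatio f r) :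
    HasRatio f⁻¹ r⁻¹ :=
  ⟨inv_pos.2 hf.1, fun x y => by
    have h1 : ∀ z, f (f⁻¹ z) = z := fun z => f.apply_symm_apply z
    have := hf.2 (f⁻¹ x) (f⁻¹ y)
    rw [h1, h1] at this
    rw [this, ← mul_assoc, inv_mul_cancel₀ hf.1.ne', one_mul]⟩

theorem hasRatio_one : HasRatio 1 1 := ⟨one_pos, fun x y => by simp⟩

theorem HasRatio.continuous {f : Equiv.Perm Plane} {r : ℝ} (hf : HasRatio f r) :
    Continuous f := by
  have : LipschitzWith ⟨r, hf.1.le⟩ f := by
    apply LipschitzWith.of_dist_le_mul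
    intro x y
    exact (hf.2 x y).le
  exact this.continuous

/-- A similitude as a homeomorphism. -/
def HasRatio.homeo {f : Equiv.Perm Plane} {r : ℝ} (hf : HasRatio f r) : Plane ≃ₜ Plane where
  toEquiv := f
  continuous_toFun := hf.continuous
  continuous_invFun := hf.inv.continuous

theorem HasRatio.image_interior {f : Equiv.Perm Plane} {r : ℝ} (hf : HasRatio f r)
    (s : Set Plane) : f '' interior s = interior (f '' s) :=
  hf.homeo.image_interior s

theorem HasRatio.diam_le {f : Equiv.Perm Plane} {r : ℝ} (hf : HasRatio f r) {s : Set Plane}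
    (hs : Bornology.IsBounded s) : Metric.diam (f '' s) ≤ r * Metric.diam s := by
  apply Metric.diam_le_of_forall_dist_le (mul_nonneg hf.1.le Metric.diam_nonneg)
  rintro _ ⟨x, hx, rfl⟩ _ ⟨y, hy, rfl⟩
  rw [hf.2]
  exact mul_le_mul_of_nonneg_left (Metric.dist_le_diam_of_mem hs hx hy) hf.1.le

theorem HasRatio.isBounded {f : Equiv.Perm Plane} {r : ℝ} (hf : HasRatio f r) {s : Set Plane}
    (hs : IsCompact s) : IsCompact (f '' s) := hs.image hf.continuous

theorem HasRatio.diam_eq {f : Equiv.Perm Plane} {r : ℝ} (hf : HasRatio f r) {s : Set Plane}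
    (hs : IsCompact s) : Metric.diam (f '' s) = r * Metric.diam s := by
  apply le_antisymm (hf.diam_le hs.isBounded)
  have h1 := hf.inv.diam_le (hf.isBounded hs).isBounded
  have h2 : (f⁻¹ : Equiv.Perm Plane) '' (f '' s) = s := by
    rw [Set.image_image]
    have h1 : ∀ z, (f⁻¹ : Equiv.Perm Plane) (f z) = z := fun z => f.symm_apply_apply z
    simp [h1]
  rw [h2] at h1
  calc r * Metric.diam s ≤ r * (r⁻¹ * Metric.diam (f '' s)) :=
        mul_le_mul_of_nonneg_left h1 hf.1.le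
    _ = Metric.diam (f '' s) := by
        rw [← mul_assoc, mul_inv_cancel₀ hf.1.ne', one_mul]

/-! ### Boxes -/

/-- The point with coordinates `(u, v)`. -/
noncomputable def pt (u v : ℝ) : Plane := !₂[u, v]

@[simp] theorem pt_zero (u v : ℝ) : pt u v 0 = u := by simp [pt]
@[simp] theorem pt_one (u v : ℝ) : pt u v 1 = v := by simp [pt]

theorem ext2 {z w : Plane} (h0 : z 0 = w 0) (h1 : z 1 = w 1) : z = w := by
  ext i
  fin_cases i
  · exact h0
  · exact h1

theorem dist_sq (z w : Plane) : dist z w ^ 2 = (z 0 - w 0) ^ 2 + (z 1 - w 1) ^ 2 := by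
  rw [EuclideanSpace.dist_eq, Real.sq_sqrt (by positivity)]
  simp [Real.dist_eq]

/-- The closed square with lower left corner `(c,d)` and side `l`. -/
def box (c d l : ℝ) : Set Plane := {z | (c ≤ z 0 ∧ z 0 ≤ c + l) ∧ (d ≤ z 1 ∧ z 1 ≤ d + l)}

/-- The open square. -/
def obox (c d l : ℝ) : Set Plane := {z | (c < z 0 ∧ z 0 < c + l) ∧ (d < z 1 ∧ z 1 < d + l)}

theorem isClosed_box (c d l : ℝ) : IsClosed (box c d l) := by
  have h0 : Continuous fun z : Plane => z 0 := by fun_prop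
  have h1 : Continuous fun z : Plane => z 1 := by fun_prop
  exact ((isClosed_le continuous_const h0).inter (isClosed_le h0 continuous_const)).inter
    ((isClosed_le continuous_const h1).inter (isClosed_le h1 continuous_const))

theorem isOpen_obox (c d l : ℝ) : IsOpen (obox c d l) := by
  have h0 : Continuous fun z : Plane => z 0 := by fun_prop
  have h1 : Continuous fun z : Plane => z 1 := by fun_prop
  exact ((isOpen_lt continuous_const h0).inter (isOpen_lt h0 continuous_const)).inter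
    ((isOpen_lt continuous_const h1).inter (isOpen_lt h1 continuous_const))

theorem obox_sub (c d l : ℝ) : obox c d l ⊆ box c d l := by
  rintro z ⟨⟨h1, h2⟩, ⟨h3, h4⟩⟩
  exact ⟨⟨h1.le, h2.le⟩, ⟨h3.le, h4.le⟩⟩

theorem interior_box (c d l : ℝ) : interior (box c d l) = obox c d l := by
  apply Set.Subset.antisymm
  · intro z hz
    have hz' := interior_subset hz
    rw [mem_interior_iff_mem_nhds] at hz
    have key : ∀ w : Plane, ∃ ε : ℝ, 0 < ε ∧ z + ε • w ∈ box c d l := by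
      intro w
      have hcont : Filter.Tendsto (fun ε : ℝ => z + ε • w) (nhds 0) (nhds z) := by
        have h1 : Continuous (fun ε : ℝ => z + ε • w) := by fun_prop
        have := h1.tendsto 0
        simpa using this
      have hev := hcont.eventually hz
      rw [Metric.eventually_nhds_iff] at hev
      obtain ⟨ε, hε, h⟩ := hev
      exact ⟨ε / 2, by linarith,
        h (y := ε / 2) (by rw [Real.dist_eq, sub_zero, abs_of_pos (by linarith)]; linarith)⟩
    obtain ⟨⟨h1, h2⟩, ⟨h3, h4⟩⟩ := hz'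
    obtain ⟨e1, he1, k1⟩ := key (pt 1 1)
    obtain ⟨e2, he2, k2⟩ := key (pt (-1) (-1))
    obtain ⟨⟨a1, a2⟩, ⟨a3, a4⟩⟩ := k1
    obtain ⟨⟨b1, b2⟩, ⟨b3, b4⟩⟩ := k2
    simp only [PiLp.add_apply, PiLp.smul_apply, smul_eq_mul, pt_zero, pt_one] at a1 a2 a3 a4 b1 b2 b3 b4
    exact ⟨⟨by linarith, by linarith⟩, ⟨by linarith, by linarith⟩⟩
  · exact interior_maximal (obox_sub c d l) (isOpen_obox c d l)

theorem frontier_box (c d l : ℝ) : frontier (box c d l) = box c d l \ obox c d l := by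
  rw [(isClosed_box c d l).frontier_eq, interior_box]

theorem box_dist_le {c d l : ℝ} (hl : 0 ≤ l) {z w : Plane} (hz : z ∈ box c d l)
    (hw : w ∈ box c d l) : dist z w ≤ Real.sqrt 2 * l := by
  obtain ⟨⟨h1, h2⟩, ⟨h3, h4⟩⟩ := hz
  obtain ⟨⟨k1, k2⟩, ⟨k3, k4⟩⟩ := hw
  have h := dist_sq z w
  have h5 : (Real.sqrt 2 * l) ^ 2 = 2 * l ^ 2 := by
    rw [mul_pow, Real.sq_sqrt (by norm_num)]
  have h6 : dist z w ^ 2 ≤ (Real.sqrt 2 * l) ^ 2 := by
    rw [h, h5]
    nlinarith
  exact (sq_le_sq₀ dist_nonneg (by positivity)).1 h6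

theorem diam_box {c d l : ℝ} (hl : 0 ≤ l) : Metric.diam (box c d l) = Real.sqrt 2 * l := by
  have hb : Bornology.IsBounded (box c d l) := by
    rw [Metric.isBounded_iff]
    exact ⟨_, fun z hz w hw => box_dist_le hl hz hw⟩
  apply le_antisymm
  · exact Metric.diam_le_of_forall_dist_le (by positivity) fun z hz w hw => box_dist_le hl hz hw
  · have h1 : dist (pt c d) (pt (c + l) (d + l)) = Real.sqrt 2 * l := by
      have h := dist_sq (pt c d) (pt (c + l) (d + l))
      simp only [pt_zero, pt_one] at h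
      have h5 : (Real.sqrt 2 * l) ^ 2 = 2 * l ^ 2 := by
        rw [mul_pow, Real.sq_sqrt (by norm_num)]
      have h6 : dist (pt c d) (pt (c + l) (d + l)) ^ 2 = (Real.sqrt 2 * l) ^ 2 := by
        rw [h, h5]; ring
      exact (sq_eq_sq₀ dist_nonneg (by positivity)).1 h6
    rw [← h1]
    apply Metric.dist_le_diam_of_mem hb
    · exact ⟨⟨by simp, by simpa using hl⟩, ⟨by simp, by simpa using hl⟩⟩
    · exact ⟨⟨by simpa using hl, by simp⟩, ⟨by simpa using hl, by simp⟩⟩

theorem isCompact_box (c d l : ℝ) : IsCompact (box c d l) := by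
  by_cases hl : 0 ≤ l
  · apply Metric.isCompact_of_isClosed_isBounded (isClosed_box c d l)
    rw [Metric.isBounded_iff]
    exact ⟨_, fun z hz w hw => box_dist_le hl hz hw⟩
  · have : box c d l = ∅ := by
      rw [Set.eq_empty_iff_forall_notMem]
      rintro z ⟨⟨h1, h2⟩, -⟩
      linarith
    rw [this]
    exact isCompact_empty

/-! ### Squares are polygons -/

theorem seg_h {a b y : ℝ} (hab : a < b) :
    segment ℝ (pt a y) (pt b y) = {z : Plane | z 1 = y ∧ a ≤ z 0 ∧ z 0 ≤ b} := by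
  ext z
  constructor
  · rintro ⟨s, t, hs, ht, hst, rfl⟩
    have e : s = 1 - t := by linarith
    subst e
    simp only [Set.mem_ofPred_eq, PiLp.add_apply, PiLp.smul_apply, smul_eq_mul, pt_zero, pt_one]
    refine ⟨by ring, ?_, ?_⟩ <;> nlinarith
  · rintro ⟨h1, h2, h3⟩
    have hba : 0 < b - a := by linarith
    refine ⟨(b - z 0) / (b - a), (z 0 - a) / (b - a), div_nonneg (by linarith) hba.le,
      div_nonneg (by linarith) hba.le, ?_, ?_⟩
    · field_simp; ring
    · apply ext2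
      · simp only [PiLp.add_apply, PiLp.smul_apply, smul_eq_mul, pt_zero]
        field_simp; ring
      · simp only [PiLp.add_apply, PiLp.smul_apply, smul_eq_mul, pt_one, h1]
        field_simp; ring

theorem seg_v {a b x : ℝ} (hab : a < b) :
    segment ℝ (pt x a) (pt x b) = {z : Plane | z 0 = x ∧ a ≤ z 1 ∧ z 1 ≤ b} := by
  ext z
  constructor
  · rintro ⟨s, t, hs, ht, hst, rfl⟩
    have e : s = 1 - t := by linarith
    subst e
    simp only [Set.mem_ofPred_eq, PiLp.add_apply, PiLp.smul_apply, smul_eq_mul, pt_zero, pt_one]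
    refine ⟨by ring, ?_, ?_⟩ <;> nlinarith
  · rintro ⟨h1, h2, h3⟩
    have hba : 0 < b - a := by linarith
    refine ⟨(b - z 1) / (b - a), (z 1 - a) / (b - a), div_nonneg (by linarith) hba.le,
      div_nonneg (by linarith) hba.le, ?_, ?_⟩
    · field_simp; ring
    · apply ext2
      · simp only [PiLp.add_apply, PiLp.smul_apply, smul_eq_mul, pt_zero, h1]
        field_simp; ring
      · simp only [PiLp.add_apply, PiLp.smul_apply, smul_eq_mul, pt_one]
        field_simp; ring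

noncomputable def vert (c d l : ℝ) : ZMod 4 → Plane :=
  (![pt c d, pt (c + l) d, pt (c + l) (d + l), pt c (d + l)] : Fin 4 → Plane)

theorem side0 {c d l : ℝ} (hl : 0 < l) : segment ℝ (vert c d l 0) (vert c d l (0 + 1)) =
    {z : Plane | z 1 = d ∧ c ≤ z 0 ∧ z 0 ≤ c + l} := seg_h (by linarith)

theorem side1 {c d l : ℝ} (hl : 0 < l) : segment ℝ (vert c d l 1) (vert c d l (1 + 1)) =
    {z : Plane | z 0 = c + l ∧ d ≤ z 1 ∧ z 1 ≤ d + l} := seg_v (by linarith)

theorem side2 {c d l : ℝ} (hl : 0 < l) : segment ℝ (vert c d l 2) (vert c d l (2 + 1)) =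
    {z : Plane | z 1 = d + l ∧ c ≤ z 0 ∧ z 0 ≤ c + l} := by
  rw [segment_symm]
  exact seg_h (by linarith)

theorem side3 {c d l : ℝ} (hl : 0 < l) : segment ℝ (vert c d l 3) (vert c d l (3 + 1)) =
    {z : Plane | z 0 = c ∧ d ≤ z 1 ∧ z 1 ≤ d + l} := by
  rw [segment_symm]
  exact seg_v (by linarith)

theorem zmod4 (i : ZMod 4) : i = 0 ∨ i = 1 ∨ i = 2 ∨ i = 3 := by
  revert i
  decide

theorem isPolygon_box {c d l : ℝ} (hl : 0 < l) : IsPolygon (box c d l) := by
  refine ⟨isCompact_box c d l, ?_, 4, by norm_num, vert c d l, ?_, ?_, ?_⟩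
  · rw [interior_box]
    refine ⟨pt (c + l / 2) (d + l / 2), ?_⟩
    simp only [obox, Set.mem_ofPred_eq, pt_zero, pt_one]
    constructor <;> constructor <;> linarith
  · intro i j hij
    have h0 := congrArg (fun z : Plane => z 0) hij
    have h1 := congrArg (fun z : Plane => z 1) hij
    rcases zmod4 i with rfl | rfl | rfl | rfl <;> rcases zmod4 j with rfl | rfl | rfl | rfl <;>
      first
      | rfl
      | (exfalso
         simp [vert] at h0 h1
         linarith)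
  · rw [frontier_box]
    ext z
    simp only [Set.mem_iUnion, Set.mem_sdiff]
    constructor
    · rintro ⟨⟨⟨h1, h2⟩, ⟨h3, h4⟩⟩, h5⟩
      by_cases a1 : z 1 = d
      · exact ⟨0, by rw [side0 hl]; exact ⟨a1, h1, h2⟩⟩
      by_cases a2 : z 0 = c + l
      · exact ⟨1, by rw [side1 hl]; exact ⟨a2, h3, h4⟩⟩
      by_cases a3 : z 1 = d + l
      · exact ⟨2, by rw [side2 hl]; exact ⟨a3, h1, h2⟩⟩
      by_cases a4 : z 0 = c
      · exact ⟨3, by rw [side3 hl]; exact ⟨a4, h3, h4⟩⟩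
      exfalso
      exact h5 ⟨⟨lt_of_le_of_ne h1 (Ne.symm a4), lt_of_le_of_ne h2 a2⟩,
        ⟨lt_of_le_of_ne h3 (Ne.symm a1), lt_of_le_of_ne h4 a3⟩⟩
    · rintro ⟨i, hi⟩
      rcases zmod4 i with rfl | rfl | rfl | rfl
      · rw [side0 hl] at hi
        obtain ⟨h1, h2, h3⟩ := hi
        exact ⟨⟨⟨h2, h3⟩, ⟨by linarith, by linarith⟩⟩, fun h => by have := h.2.1; linarith⟩
      · rw [side1 hl] at hi
        obtain ⟨h1, h2, h3⟩ := hi
        exact ⟨⟨⟨by linarith, by linarith⟩, ⟨h2, h3⟩⟩, fun h => by have := h.1.2; linarith⟩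
      · rw [side2 hl] at hi
        obtain ⟨h1, h2, h3⟩ := hi
        exact ⟨⟨⟨h2, h3⟩, ⟨by linarith, by linarith⟩⟩, fun h => by have := h.2.2; linarith⟩
      · rw [side3 hl] at hi
        obtain ⟨h1, h2, h3⟩ := hi
        exact ⟨⟨⟨by linarith, by linarith⟩, ⟨h2, h3⟩⟩, fun h => by have := h.1.1; linarith⟩
  · have e0 : vert c d l 0 = pt c d := rfl
    have e1 : vert c d l 1 = pt (c + l) d := rfl
    have e2 : vert c d l 2 = pt (c + l) (d + l) := rfl
    have e3 : vert c d l 3 = pt c (d + l) := rfl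
    have f0 : vert c d l (0 + 1) = pt (c + l) d := rfl
    have f1 : vert c d l (1 + 1) = pt (c + l) (d + l) := rfl
    have f2 : vert c d l (2 + 1) = pt c (d + l) := rfl
    have f3 : vert c d l (3 + 1) = pt c d := rfl
    intro i j hij z hz
    obtain ⟨hzi, hzj⟩ := hz
    rcases zmod4 i with rfl | rfl | rfl | rfl <;> rcases zmod4 j with rfl | rfl | rfl | rfl <;>
      first
      | exact absurd rfl hij
      | skip
    all_goals
      first
      | rw [side0 hl] at hzi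
      | rw [side1 hl] at hzi
      | rw [side2 hl] at hzi
      | rw [side3 hl] at hzi
    all_goals
      first
      | rw [side0 hl] at hzj
      | rw [side1 hl] at hzj
      | rw [side2 hl] at hzj
      | rw [side3 hl] at hzj
    all_goals
      obtain ⟨a1, a2, a3⟩ := hzi
      obtain ⟨b1, b2, b3⟩ := hzj
    all_goals
      first
      | (exfalso; linarith)
      | skip
    all_goals
      simp only [e0, e1, e2, e3, f0, f1, f2, f3, Set.mem_inter_iff, Set.mem_insert_iff,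
        Set.mem_singleton_iff]
    all_goals
      first
      | (have hz : z = pt c d := ext2 (by simp; linarith) (by simp; linarith)
         simp [hz])
      | (have hz : z = pt (c + l) d := ext2 (by simp; linarith) (by simp; linarith)
         simp [hz])
      | (have hz : z = pt (c + l) (d + l) := ext2 (by simp; linarith) (by simp; linarith)
         simp [hz])
      | (have hz : z = pt c (d + l) := ext2 (by simp; linarith) (by simp; linarith)
         simp [hz])

/-! ### The tiling -/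

/-- The block `(i,j)` is not subdivided. -/
def Big (i j : ℤ) : Prop := 8 ∣ i ∧ 8 ∣ j

/-- The plane is divided into blocks, squares of side 2; the blocks `(i,j)` with `8 ∣ i` and
`8 ∣ j` are tiles, the other blocks are divided into four unit squares. -/
def T0 : Set (Set Plane) :=
  {t | ∃ i j : ℤ, Big i j ∧ t = box (2 * i) (2 * j) 2} ∪
    {t | ∃ a b : ℤ, ¬ Big (a / 2) (b / 2) ∧ t = box a b 1}

/-- the tile containing the unit cell with corner `(a,b)` -/
noncomputable def cellTile (a b : ℤ) : Set Plane :=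
  open Classical in
  if Big (a / 2) (b / 2) then box (2 * ((a / 2 : ℤ) : ℝ)) (2 * ((b / 2 : ℤ) : ℝ)) 2
  else box a b 1

theorem cellTile_mem (a b : ℤ) : cellTile a b ∈ T0 := by
  unfold cellTile
  split_ifs with h
  · exact Or.inl ⟨_, _, h, rfl⟩
  · exact Or.inr ⟨_, _, h, rfl⟩

theorem cell_sub (a b : ℤ) : box a b 1 ⊆ cellTile a b := by
  unfold cellTile
  split_ifs with h
  · rintro z ⟨⟨h1, h2⟩, ⟨h3, h4⟩⟩
    have e1 : 2 * (a / 2) ≤ a ∧ a + 1 ≤ 2 * (a / 2) + 2 := by omega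
    have e2 : 2 * (b / 2) ≤ b ∧ b + 1 ≤ 2 * (b / 2) + 2 := by omega
    have e1' : 2 * ((a / 2 : ℤ) : ℝ) ≤ a ∧ (a : ℝ) + 1 ≤ 2 * ((a / 2 : ℤ) : ℝ) + 2 := by
      exact_mod_cast e1
    have e2' : 2 * ((b / 2 : ℤ) : ℝ) ≤ b ∧ (b : ℝ) + 1 ≤ 2 * ((b / 2 : ℤ) : ℝ) + 2 := by
      exact_mod_cast e2
    exact ⟨⟨by linarith [e1'.1], by linarith [e1'.2]⟩, ⟨by linarith [e2'.1], by linarith [e2'.2]⟩⟩
  · exact Set.Subset.refl _

/-- A tile with integer corner and side containing a cell is the tile of that cell. -/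
theorem cellTile_unique {t : Set Plane} (ht : t ∈ T0) :
    ∃ c d : ℤ, ∃ l : ℤ, 0 < l ∧ t = box c d l ∧
      ∀ a b : ℤ, c ≤ a → a + 1 ≤ c + l → d ≤ b → b + 1 ≤ d + l → t = cellTile a b := by
  rcases ht with ⟨i, j, h, rfl⟩ | ⟨a', b', h, rfl⟩
  · refine ⟨2 * i, 2 * j, 2, by norm_num, by push_cast; rfl, ?_⟩
    intro a b h1 h2 h3 h4
    have e1 : a / 2 = i := by omega
    have e2 : b / 2 = j := by omega
    rw [cellTile, e1, e2, if_pos h]
  · refine ⟨a', b', 1, by norm_num, by push_cast; rfl, ?_⟩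
    intro a b h1 h2 h3 h4
    have e1 : a = a' := by omega
    have e2 : b = b' := by omega
    subst e1 e2
    rw [cellTile, if_neg h]

/-- Tiles sharing an interior point of one of them coincide. -/
theorem tile_eq {t t' : Set Plane} (ht : t ∈ T0) (ht' : t' ∈ T0) {z : Plane}
    (hz : z ∈ interior t) (hz' : z ∈ t') : t = t' := by
  obtain ⟨c, d, l, hl, rfl, h⟩ := cellTile_unique ht
  obtain ⟨c', d', l', hl', rfl, h'⟩ := cellTile_unique ht'
  rw [interior_box] at hz
  obtain ⟨⟨h1, h2⟩, ⟨h3, h4⟩⟩ := hz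
  obtain ⟨⟨k1, k2⟩, ⟨k3, k4⟩⟩ := hz'
  have a1 : c < c' + l' := by
    have : (c : ℝ) < c' + l' := by linarith
    exact_mod_cast this
  have a2 : c' < c + l := by
    have : (c' : ℝ) < c + l := by linarith
    exact_mod_cast this
  have a3 : d < d' + l' := by
    have : (d : ℝ) < d' + l' := by linarith
    exact_mod_cast this
  have a4 : d' < d + l := by
    have : (d' : ℝ) < d + l := by linarith
    exact_mod_cast this
  rw [h (max c c') (max d d') (by omega) (by omega) (by omega) (by omega),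
    h' (max c c') (max d d') (by omega) (by omega) (by omega) (by omega)]

theorem mem_cell (z : Plane) : z ∈ box (⌊z 0⌋ : ℤ) (⌊z 1⌋ : ℤ) 1 :=
  ⟨⟨Int.floor_le _, (Int.lt_floor_add_one _).le⟩, ⟨Int.floor_le _, (Int.lt_floor_add_one _).le⟩⟩

theorem T0_tiling : IsTiling T0 := by
  refine ⟨?_, ?_, ?_⟩
  · rintro t (⟨i, j, -, rfl⟩ | ⟨a, b, -, rfl⟩)
    · exact isCompact_box _ _ _
    · exact isCompact_box _ _ _
  · rw [Set.eq_univ_iff_forall]
    intro z
    exact ⟨_, cellTile_mem _ _, cell_sub _ _ (mem_cell z)⟩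
  · intro t ht t' ht' hne z hz
    have hc : ∀ t ∈ T0, IsClosed t := by
      intro t ht
      obtain ⟨c, d, l, hl, rfl, h⟩ := cellTile_unique ht
      exact isClosed_box _ _ _
    rw [(hc t ht).frontier_eq, (hc t' ht').frontier_eq]
    exact ⟨⟨hz.1, fun h => hne (tile_eq ht ht' h hz.2)⟩,
      ⟨hz.2, fun h => hne (tile_eq ht' ht h hz.1).symm⟩⟩

/-! ### Translations -/

theorem translate_box (c d l u v : ℝ) :
    (IsometryEquiv.addRight (pt u v)) '' box c d l = box (c + u) (d + v) l := by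
  ext z
  constructor
  · rintro ⟨w, ⟨⟨h1, h2⟩, ⟨h3, h4⟩⟩, rfl⟩
    have e0 : (IsometryEquiv.addRight (pt u v) w) 0 = w 0 + u := by simp
    have e1 : (IsometryEquiv.addRight (pt u v) w) 1 = w 1 + v := by simp
    refine ⟨⟨?_, ?_⟩, ⟨?_, ?_⟩⟩ <;> first | rw [e0] | rw [e1]
    all_goals linarith
  · rintro ⟨⟨h1, h2⟩, ⟨h3, h4⟩⟩
    refine ⟨pt (z 0 - u) (z 1 - v), ⟨⟨?_, ?_⟩, ⟨?_, ?_⟩⟩, ?_⟩
    · rw [pt_zero]; linarith
    · rw [pt_zero]; linarith
    · rw [pt_one]; linarith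
    · rw [pt_one]; linarith
    · apply ext2 <;> simp

theorem T0_finiteOrder : FiniteOrder T0 := by
  refine ⟨{box 0 0 2, box 0 0 1}, Set.toFinite _, ?_⟩
  rintro t (⟨i, j, -, rfl⟩ | ⟨a, b, -, rfl⟩)
  · refine ⟨box 0 0 2, by simp, IsometryEquiv.addRight (pt (2 * i) (2 * j)), ?_⟩
    rw [translate_box, zero_add, zero_add]
  · refine ⟨box 0 0 1, by simp, IsometryEquiv.addRight (pt a b), ?_⟩
    rw [translate_box, zero_add, zero_add]

/-- The translation by `16 (m, n)` maps tiles to tiles. -/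
theorem T0_translate (m n : ℤ) {t : Set Plane} (ht : t ∈ T0) :
    (IsometryEquiv.addRight (pt (16 * m) (16 * n))) '' t ∈ T0 := by
  rcases ht with ⟨i, j, h, rfl⟩ | ⟨a, b, h, rfl⟩
  · left
    refine ⟨i + 8 * m, j + 8 * n, ?_, ?_⟩
    · exact ⟨Dvd.dvd.add h.1 ⟨m, rfl⟩, Dvd.dvd.add h.2 ⟨n, rfl⟩⟩
    · rw [translate_box]
      push_cast
      congr 1 <;> ring
  · right
    refine ⟨a + 16 * m, b + 16 * n, ?_, ?_⟩
    · have e1 : (a + 16 * m) / 2 = a / 2 + 8 * m := by omega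
      have e2 : (b + 16 * n) / 2 = b / 2 + 8 * n := by omega
      rw [e1, e2]
      unfold Big at h ⊢
      omega
    · rw [translate_box]
      push_cast
      rfl

theorem T0_quasiperiodic : Quasiperiodic T0 := by
  rintro U ⟨hU, ⟨e⟩⟩
  have hcomp : IsCompact (⋃₀ U) := by
    have h1 : CompactSpace ↥(Metric.closedBall (0 : Plane) 1) :=
      isCompact_iff_compactSpace.1 (isCompact_closedBall 0 1)
    exact isCompact_iff_compactSpace.2 e.symm.compactSpace
  obtain ⟨ρ, hρ⟩ := hcomp.isBounded.subset_closedBall (0 : Plane)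
  refine ⟨max ρ 0 + 32, by positivity, ?_⟩
  intro c
  -- the lattice vector near `c`
  set m : ℤ := ⌊c 0 / 16⌋ with hm
  set n : ℤ := ⌊c 1 / 16⌋ with hn
  let g := IsometryEquiv.addRight (pt (16 * m) (16 * n))
  refine ⟨(fun t => g '' t) '' U, ⟨?_, ?_⟩, ⟨g, rfl⟩, ?_⟩
  · rintro _ ⟨t, ht, rfl⟩
    exact T0_translate m n (hU ht)
  · have h1 : ⋃₀ ((fun t => g '' t) '' U) = g '' (⋃₀ U) := by
      rw [Set.sUnion_image, Set.sUnion_eq_biUnion, Set.image_iUnion₂]
    rw [h1]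
    exact ⟨(g.toHomeomorph.image (⋃₀ U)).symm.trans e⟩
  · rintro _ ⟨_, ⟨t, ht, rfl⟩, ⟨z, hz, rfl⟩⟩
    have h1 : z ∈ Metric.closedBall (0 : Plane) ρ := hρ ⟨t, ht, hz⟩
    rw [Metric.mem_closedBall] at h1 ⊢
    have h2 : g z = z + pt (16 * m) (16 * n) := rfl
    have h3 : dist (pt (16 * m) (16 * n)) c ≤ 32 := by
      have h4 := dist_sq (pt (16 * m) (16 * n)) c
      simp only [pt_zero, pt_one] at h4
      have a1 : (m : ℝ) ≤ c 0 / 16 := Int.floor_le _
      have a2 : c 0 / 16 < m + 1 := Int.lt_floor_add_one _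
      have a3 : (n : ℝ) ≤ c 1 / 16 := Int.floor_le _
      have a4 : c 1 / 16 < n + 1 := Int.lt_floor_add_one _
      have h5 : dist (pt (16 * m) (16 * n)) c ^ 2 ≤ 32 ^ 2 := by
        rw [h4]; nlinarith
      exact (sq_le_sq₀ dist_nonneg (by norm_num)).1 h5
    have h6 : dist (g z) (pt (16 * m) (16 * n)) = dist z 0 := by
      rw [h2, dist_eq_norm, add_sub_cancel_right, dist_zero_right]
    calc dist (g z) c ≤ dist (g z) (pt (16 * m) (16 * n)) + dist (pt (16 * m) (16 * n)) c :=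
          dist_triangle _ _ _
      _ ≤ max ρ 0 + 32 := add_le_add (h6.le.trans (h1.trans (le_max_left _ _))) h3

/-! ### Self-similarity -/

/-- The affine map `z ↦ r z + (u, v)`. -/
noncomputable def aff (r : ℝ) (hr : r ≠ 0) (u v : ℝ) : Equiv.Perm Plane where
  toFun z := r • z + pt u v
  invFun z := r⁻¹ • (z - pt u v)
  left_inv z := by simp [smul_smul, inv_mul_cancel₀ hr]
  right_inv z := by simp [smul_smul, mul_inv_cancel₀ hr]

theorem aff_ratio {r : ℝ} (hr : 0 < r) (u v : ℝ) : HasRatio (aff r hr.ne' u v) r := by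
  refine ⟨hr, fun x y => ?_⟩
  have : ∀ z, aff r hr.ne' u v z = r • z + pt u v := fun z => rfl
  rw [this, this, dist_add_right, dist_smul₀, Real.norm_of_nonneg hr.le]

theorem aff_box {r : ℝ} (hr : 0 < r) (u v c d l : ℝ) :
    aff r hr.ne' u v '' box c d l = box (r * c + u) (r * d + v) (r * l) := by
  have e : ∀ z, aff r hr.ne' u v z = r • z + pt u v := fun z => rfl
  ext z
  constructor
  · rintro ⟨w, ⟨⟨h1, h2⟩, ⟨h3, h4⟩⟩, rfl⟩
    rw [e]
    refine ⟨⟨?_, ?_⟩, ⟨?_, ?_⟩⟩ <;>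
      simp only [PiLp.add_apply, PiLp.smul_apply, smul_eq_mul, pt_zero, pt_one] <;> nlinarith
  · rintro ⟨⟨h1, h2⟩, ⟨h3, h4⟩⟩
    refine ⟨pt ((z 0 - u) / r) ((z 1 - v) / r), ⟨⟨?_, ?_⟩, ⟨?_, ?_⟩⟩, ?_⟩
    · rw [pt_zero, le_div_iff₀ hr]; linarith
    · rw [pt_zero, div_le_iff₀ hr]; linarith
    · rw [pt_one, le_div_iff₀ hr]; linarith
    · rw [pt_one, div_le_iff₀ hr]; linarith
    · rw [e]
      apply ext2
      · simp only [PiLp.add_apply, PiLp.smul_apply, smul_eq_mul, pt_zero]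
        field_simp; ring
      · simp only [PiLp.add_apply, PiLp.smul_apply, smul_eq_mul, pt_one]
        field_simp; ring

/-- A square with even corner and even side is a union of tiles. -/
theorem even_union (u v w : ℤ) (hw : 0 < w) :
    ∃ S : Set (Set Plane), S ⊆ T0 ∧ box (2 * u) (2 * v) (2 * w) = ⋃₀ S := by
  refine ⟨{t | t ∈ T0 ∧ t ⊆ box (2 * u) (2 * v) (2 * w)}, fun t ht => ht.1, ?_⟩
  apply Set.Subset.antisymm
  · rintro z ⟨⟨h1, h2⟩, ⟨h3, h4⟩⟩
    have key : ∀ (x : ℝ) (u : ℤ), (2 * u : ℝ) ≤ x → x ≤ 2 * u + 2 * w →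
        ∃ a : ℤ, 2 * u ≤ a ∧ a + 1 ≤ 2 * u + 2 * w ∧ (a : ℝ) ≤ x ∧ x ≤ a + 1 := by
      intro x u hx1 hx2
      have f1 : (⌊x⌋ : ℝ) ≤ x := Int.floor_le x
      have f2 : x < ⌊x⌋ + 1 := Int.lt_floor_add_one x
      have f3 : 2 * u ≤ ⌊x⌋ := Int.le_floor.2 (by push_cast; exact hx1)
      by_cases h : ⌊x⌋ + 1 ≤ 2 * u + 2 * w
      · exact ⟨⌊x⌋, f3, h, f1, f2.le⟩
      · refine ⟨2 * u + 2 * w - 1, by omega, by omega, ?_, ?_⟩
        · have h5 : 2 * u + 2 * w ≤ ⌊x⌋ := by omega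
          have h6 : (2 * u + 2 * w : ℝ) ≤ ⌊x⌋ := by exact_mod_cast h5
          push_cast
          linarith
        · push_cast
          linarith
    obtain ⟨a, a1, a2, a3, a4⟩ := key (z 0) u h1 h2
    obtain ⟨b, b1, b2, b3, b4⟩ := key (z 1) v h3 h4
    refine ⟨cellTile a b, ⟨cellTile_mem a b, ?_⟩, cell_sub a b ⟨⟨a3, a4⟩, ⟨b3, b4⟩⟩⟩
    unfold cellTile
    split_ifs with h
    · rintro y ⟨⟨y1, y2⟩, ⟨y3, y4⟩⟩
      have e1 : 2 * u ≤ 2 * (a / 2) ∧ 2 * (a / 2) + 2 ≤ 2 * u + 2 * w := by omega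
      have e2 : 2 * v ≤ 2 * (b / 2) ∧ 2 * (b / 2) + 2 ≤ 2 * v + 2 * w := by omega
      have e1' : (2 * u : ℝ) ≤ 2 * ((a / 2 : ℤ) : ℝ) ∧
          2 * ((a / 2 : ℤ) : ℝ) + 2 ≤ 2 * u + 2 * w := by exact_mod_cast e1
      have e2' : (2 * v : ℝ) ≤ 2 * ((b / 2 : ℤ) : ℝ) ∧
          2 * ((b / 2 : ℤ) : ℝ) + 2 ≤ 2 * v + 2 * w := by exact_mod_cast e2
      exact ⟨⟨by linarith [e1'.1], by linarith [e1'.2]⟩,
        ⟨by linarith [e2'.1], by linarith [e2'.2]⟩⟩
    · rintro y ⟨⟨y1, y2⟩, ⟨y3, y4⟩⟩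
      have c1 : (2 * u : ℝ) ≤ a := by exact_mod_cast a1
      have c2 : (a : ℝ) + 1 ≤ 2 * u + 2 * w := by exact_mod_cast a2
      have c3 : (2 * v : ℝ) ≤ b := by exact_mod_cast b1
      have c4 : (b : ℝ) + 1 ≤ 2 * v + 2 * w := by exact_mod_cast b2
      exact ⟨⟨by linarith, by linarith⟩, ⟨by linarith, by linarith⟩⟩
  · rintro z ⟨t, ⟨-, h⟩, hz⟩
    exact h hz

theorem T0_selfSimilar : SelfSimilar T0 := by
  refine ⟨aff 2 two_ne_zero 0 0, 2, aff_ratio two_pos 0 0, by norm_num, ?_⟩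
  rintro t (⟨i, j, -, rfl⟩ | ⟨a, b, -, rfl⟩)
  · rw [aff_box two_pos]
    obtain ⟨S, hS, h⟩ := even_union (2 * i) (2 * j) 2 (by norm_num)
    refine ⟨S, hS, ?_⟩
    rw [← h]
    push_cast
    congr 1 <;> ring
  · rw [aff_box two_pos]
    obtain ⟨S, hS, h⟩ := even_union a b 1 (by norm_num)
    refine ⟨S, hS, ?_⟩
    rw [← h]
    push_cast
    congr 1 <;> ring

theorem T0_polygonal : SelfSimilarPolygonal T0 := by
  refine ⟨T0_tiling, T0_finiteOrder, T0_quasiperiodic, T0_selfSimilar, ?_, ?_⟩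
  · rintro t (⟨i, j, -, rfl⟩ | ⟨a, b, -, rfl⟩)
    · exact isPolygon_box two_pos
    · exact isPolygon_box one_pos
  · intro t ht t' ht'
    obtain ⟨c, d, l, hl, rfl, -⟩ := cellTile_unique ht
    obtain ⟨c', d', l', hl', rfl, -⟩ := cellTile_unique ht'
    have h1 : (0 : ℝ) < l := by exact_mod_cast hl
    have h2 : (0 : ℝ) < l' := by exact_mod_cast hl'
    have hr : (0 : ℝ) < l' / l := div_pos h2 h1
    refine ⟨aff (l' / l) hr.ne' (c' - l' / l * c) (d' - l' / l * d), l' / l, aff_ratio hr _ _, ?_⟩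
    rw [aff_box hr]
    congr 1
    · ring
    · ring
    · field_simp

/-! ### Generating pairs -/

namespace GeneratingPair

variable (G : GeneratingPair)

theorem e_append (σ τ : List (Fin G.N)) : G.e (σ ++ τ) = G.e σ + G.e τ := by
  simp [e]

theorem f_append (σ τ : List (Fin G.N)) : G.f (σ ++ τ) = G.f σ * G.f τ := by
  simp [f]

theorem f_ratio (σ : List (Fin G.N)) : HasRatio (G.f σ) (G.s ^ G.e σ) := by
  induction σ with
  | nil => simpa [f, e] using hasRatio_one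
  | cons n σ ih =>
    have h : G.f (n :: σ) = G.F n * G.f σ := by simp [f]
    have h' : G.e (n :: σ) = G.a n + G.e σ := by simp [e]
    rw [h, h', pow_add]
    exact (G.ratio n).mul ih

theorem fneg_ratio (σ : List (Fin G.N)) : HasRatio (G.fneg σ) (G.s ^ G.e σ)⁻¹ := by
  induction σ with
  | nil => simpa [fneg, e] using hasRatio_one
  | cons n σ ih =>
    have h : G.fneg (n :: σ) = (G.F n)⁻¹ * G.fneg σ := by simp [fneg]
    have h' : G.e (n :: σ) = G.a n + G.e σ := by simp [e]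
    rw [h, h', pow_add, mul_inv]
    exact (G.ratio n).inv.mul ih

theorem isCompact_p : IsCompact G.p := G.polygon.1

/-- The diameter of a tile. -/
theorem tile_diam (σ τ : List (Fin G.N)) :
    Metric.diam ((G.fneg τ * G.f σ) '' G.p) = (G.s ^ G.e τ)⁻¹ * G.s ^ G.e σ * Metric.diam G.p :=
  ((G.fneg_ratio τ).mul (G.f_ratio σ)).diam_eq G.isCompact_p

theorem pre_pos (θ : ℕ → Fin G.N) {k : ℕ} : k ≤ G.e (G.pre θ k) := by
  induction k with
  | zero => exact Nat.zero_le _
  | succ k ih =>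
    have : G.pre θ (k + 1) = G.pre θ k ++ [θ k] := by
      simp [pre, List.range_succ]
    rw [this, e_append]
    have h1 : G.e [θ k] = G.a (θ k) := by simp [e]
    have := G.a_pos (θ k)
    omega

/-- Every tile has diameter `diam p * s ^ j` with `j < a n` for some `n`. -/
theorem tile_diam_mem (θ : ℕ → Fin G.N) {t : Set Plane} (ht : t ∈ G.tiling θ) :
    ∃ (j : ℕ) (n : Fin G.N), j < G.a n ∧ Metric.diam t = G.s ^ j * Metric.diam G.p := by
  simp only [tiling, Set.mem_iUnion] at ht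
  obtain ⟨k, hk, σ, h1, h2, rfl⟩ := ht
  have hne : σ ≠ [] := by
    rintro rfl
    have := G.pre_pos θ (k := k)
    have h3 : G.e ([] : List (Fin G.N)) = 0 := rfl
    omega
  have h3 : G.e σ = G.em σ + G.a (σ.getLast hne) := by
    conv_lhs => rw [← List.dropLast_append_getLast hne]
    rw [e_append, em]
    simp [e]
  refine ⟨G.e σ - G.e (G.pre θ k), σ.getLast hne, by omega, ?_⟩
  rw [tile_diam]
  congr 1
  have h4 : G.s ^ G.e (G.pre θ k) ≠ 0 := pow_ne_zero _ G.s_pos.ne'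
  rw [inv_mul_eq_iff_eq_mul₀ h4, ← pow_add]
  congr 1
  omega

/-- The possible sums of exponents. -/
theorem exists_string : ∃ M : ℕ, ∀ m ≥ M, ∃ σ : List (Fin G.N), G.e σ = m := by
  obtain ⟨M, hM⟩ := Nat.exists_mem_closure_of_ge (s := Set.range G.a)
  refine ⟨M, fun m hm => ?_⟩
  have hg : Nat.setGcd (Set.range G.a) = 1 := by
    have h1 : Nat.setGcd (Set.range G.a) ∣ Finset.univ.gcd G.a :=
      Finset.dvd_gcd fun n _ => Nat.setGcd_dvd_of_mem ⟨n, rfl⟩
    rw [G.gcd_eq] at h1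
    exact Nat.dvd_one.1 h1
  have hmem := hM m hm (by rw [hg]; exact one_dvd m)
  clear hg hm
  induction hmem using AddSubmonoid.closure_induction with
  | mem x hx =>
    obtain ⟨n, rfl⟩ := hx
    exact ⟨[n], by simp [e]⟩
  | zero => exact ⟨[], rfl⟩
  | add x y _ _ hx hy =>
    obtain ⟨σ, hσ⟩ := hx
    obtain ⟨τ, hτ⟩ := hy
    exact ⟨σ ++ τ, by rw [e_append, hσ, hτ]⟩

/-- Each of these diameters occurs. -/
theorem tile_diam_exists (θ : ℕ → Fin G.N) (n : Fin G.N) {j : ℕ} (hj : j < G.a n) :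
    ∃ t ∈ G.tiling θ, Metric.diam t = G.s ^ j * Metric.diam G.p := by
  obtain ⟨M, hM⟩ := G.exists_string
  set k := M + G.a n + 1 with hk
  have hk' := G.pre_pos θ (k := k)
  obtain ⟨σ, hσ⟩ := hM (G.e (G.pre θ k) + j - G.a n) (by omega)
  have hE : G.e (σ ++ [n]) = G.e (G.pre θ k) + j := by
    rw [e_append, hσ]
    simp only [e, List.map_cons, List.map_nil, List.sum_cons, List.sum_nil]
    simp only [e] at hk'
    omega
  refine ⟨(G.fneg (G.pre θ k) * G.f (σ ++ [n])) '' G.p, ?_, ?_⟩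
  · simp only [tiling, Set.mem_iUnion]
    refine ⟨k, by omega, σ ++ [n], by omega, ?_, rfl⟩
    rw [em, List.dropLast_concat, hσ]
    omega
  · rw [tile_diam, hE, pow_add]
    have h4 : G.s ^ G.e (G.pre θ k) ≠ 0 := pow_ne_zero _ G.s_pos.ne'
    field_simp

end GeneratingPair

theorem mul_image (f g : Equiv.Perm Plane) (s : Set Plane) : (f * g) '' s = f '' (g '' s) := by
  rw [Equiv.Perm.coe_mul, Set.image_comp]

/-- Diameters of the tiles of `T0`. -/
theorem T0_diam {t : Set Plane} (ht : t ∈ T0) :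
    Metric.diam t = Real.sqrt 2 * 2 ∨ Metric.diam t = Real.sqrt 2 * 1 := by
  rcases ht with ⟨i, j, -, rfl⟩ | ⟨a, b, -, rfl⟩
  · left; exact diam_box (by norm_num)
  · right; exact diam_box (by norm_num)

/-- The tiling `T0` is not obtained from a generating pair. -/
theorem T0_not (G : GeneratingPair) (θ : ℕ → Fin G.N) : T0 ≠ G.tiling θ := by
  intro hT
  have hs0 := G.s_pos
  have hs1 := G.s_lt
  set D := Metric.diam G.p with hD
  have hsq : 0 < Real.sqrt 2 := by positivity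
  -- the two sizes occur
  have big0 : box (2 * ((0 : ℤ) : ℝ)) (2 * ((0 : ℤ) : ℝ)) 2 ∈ T0 :=
    Or.inl ⟨0, 0, ⟨dvd_zero _, dvd_zero _⟩, rfl⟩
  have small0 : box ((2 : ℤ) : ℝ) ((2 : ℤ) : ℝ) 1 ∈ T0 :=
    Or.inr ⟨2, 2, by unfold Big; omega, rfl⟩
  have hD0 : 0 ≤ D := Metric.diam_nonneg
  -- `D = 2 √2`
  have hDval : D = Real.sqrt 2 * 2 := by
    have h1 := big0
    rw [hT] at h1
    obtain ⟨j, n, hj, h2⟩ := G.tile_diam_mem θ h1
    rw [diam_box (by norm_num)] at h2
    have h3 : G.s ^ j ≤ 1 := pow_le_one₀ hs0.le hs1.le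
    have h4 : Real.sqrt 2 * 2 ≤ D := by
      rw [h2]
      calc G.s ^ j * D ≤ 1 * D := mul_le_mul_of_nonneg_right h3 hD0
        _ = D := one_mul D
    obtain ⟨t, ht, h5⟩ := G.tile_diam_exists θ n (j := 0) (by omega)
    rw [← hT] at ht
    rw [pow_zero, one_mul] at h5
    rcases T0_diam ht with h6 | h6
    · rw [← h6, h5]
    · rw [h6] at h5
      exfalso
      have : D = Real.sqrt 2 * 1 := h5.symm
      linarith
  -- exponents at least two occur and `s = 1/2`
  obtain ⟨n2, hn2, hs⟩ : ∃ n2, 1 < G.a n2 ∧ G.s = 1 / 2 := by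
    have h1 := small0
    rw [hT] at h1
    obtain ⟨j, n, hj, h2⟩ := G.tile_diam_mem θ h1
    rw [diam_box (by norm_num), ← hD, hDval] at h2
    have hj0 : j ≠ 0 := by
      rintro rfl
      rw [pow_zero, one_mul] at h2
      linarith
    refine ⟨n, by omega, ?_⟩
    obtain ⟨t, ht, h5⟩ := G.tile_diam_exists θ n (j := 1) (by omega)
    rw [← hT] at ht
    rw [pow_one, ← hD, hDval] at h5
    rcases T0_diam ht with h6 | h6
    · rw [h6] at h5
      nlinarith
    · rw [h6] at h5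
      have : Real.sqrt 2 * (2 * G.s - 1) = 0 := by linarith
      rcases mul_eq_zero.1 this with h7 | h7
      · exact absurd h7 hsq.ne'
      · linarith
  -- no exponent is larger than two
  have hle : ∀ n, G.a n ≤ 2 := by
    intro n
    by_contra hlt
    obtain ⟨t, ht, h5⟩ := G.tile_diam_exists θ n (j := 2) (by omega)
    rw [← hT] at ht
    rw [← hD, hDval, hs] at h5
    rcases T0_diam ht with h6 | h6 <;> rw [h6] at h5 <;> nlinarith
  have hn2' : G.a n2 = 2 := by have := hle n2; omega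
  -- the exponent one occurs
  obtain ⟨n1, hn1⟩ : ∃ n1, G.a n1 = 1 := by
    by_contra hcon
    push Not at hcon
    have h2 : 2 ∣ Finset.univ.gcd G.a := by
      apply Finset.dvd_gcd
      intro n _
      have h1 := hle n
      have h3 := hcon n
      have h4 := G.a_pos n
      have : G.a n = 2 := by omega
      rw [this]
    rw [G.gcd_eq] at h2
    omega
  have hn12 : n1 ≠ n2 := by
    rintro rfl
    omega
  -- two congruent copies of `p` in a square of side 8
  set τ : List (Fin G.N) := List.replicate (G.e (G.pre θ 2) - 2) n1 with hτ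
  have hpre := G.pre_pos θ (k := 2)
  have heτ : G.e τ = G.e (G.pre θ 2) - 2 := by
    rw [hτ]
    simp [GeneratingPair.e, hn1]
  set g : Equiv.Perm Plane := G.fneg (G.pre θ 2) * G.f τ with hg
  have hgr : HasRatio g ((G.s ^ G.e (G.pre θ 2))⁻¹ * G.s ^ G.e τ) :=
    (G.fneg_ratio _).mul (G.f_ratio _)
  have hgr4 : (G.s ^ G.e (G.pre θ 2))⁻¹ * G.s ^ G.e τ = 4 := by
    have h4 : G.s ^ G.e (G.pre θ 2) ≠ 0 := pow_ne_zero _ hs0.ne'
    rw [inv_mul_eq_iff_eq_mul₀ h4]
    have h5 : G.e (G.pre θ 2) = G.e τ + 2 := by omega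
    rw [h5, pow_add, hs]
    ring
  rw [hgr4] at hgr
  have hmem : ∀ ρ : List (Fin G.N), ρ ≠ [] → G.e ρ = 2 →
      (g * G.f ρ) '' G.p ∈ T0 ∧ Metric.diam ((g * G.f ρ) '' G.p) = Real.sqrt 2 * 2 := by
    intro ρ hρ hρe
    have h1 : g * G.f ρ = G.fneg (G.pre θ 2) * G.f (τ ++ ρ) := by
      rw [G.f_append, hg, mul_assoc]
    have h2 : G.e (τ ++ ρ) = G.e (G.pre θ 2) := by
      rw [G.e_append, heτ, hρe]; omega
    constructor
    · rw [hT, h1]
      simp only [GeneratingPair.tiling, Set.mem_iUnion]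
      refine ⟨2, by norm_num, τ ++ ρ, by omega, ?_, rfl⟩
      rw [GeneratingPair.em, List.dropLast_append_of_ne_nil hρ, G.e_append, heτ]
      have h3 : G.e ρ.dropLast + G.a (ρ.getLast hρ) = G.e ρ := by
        conv_rhs => rw [← List.dropLast_append_getLast hρ]
        rw [G.e_append]
        simp [GeneratingPair.e]
      have := G.a_pos (ρ.getLast hρ)
      omega
    · rw [h1, G.tile_diam, h2, inv_mul_cancel₀ (pow_ne_zero _ hs0.ne'), one_mul]
      exact hDval
  obtain ⟨m1, d1⟩ := hmem [n1, n1] (by simp) (by simp [GeneratingPair.e, hn1])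
  obtain ⟨m2, d2⟩ := hmem [n2] (by simp) (by simp [GeneratingPair.e, hn2'])
  have hf11 : G.f [n1, n1] = G.F n1 * G.F n1 := by simp [GeneratingPair.f]
  have hf2 : G.f [n2] = G.F n2 := by simp [GeneratingPair.f]
  rw [hf11] at m1 d1
  rw [hf2] at m2 d2
  -- they are different
  have hsub : ∀ n, G.F n '' G.p ⊆ G.p := by
    intro n
    conv_rhs => rw [G.union]
    exact Set.subset_iUnion (fun n => G.F n '' G.p) n
  have hne : (g * (G.F n1 * G.F n1)) '' G.p ≠ (g * G.F n2) '' G.p := by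
    intro heq
    rw [mul_image g (G.F n1 * G.F n1), mul_image (G.F n1) (G.F n1), mul_image g (G.F n2)] at heq
    have h1 : G.F n1 '' (G.F n1 '' G.p) = G.F n2 '' G.p := g.injective.image_injective heq
    obtain ⟨x, hx⟩ := G.polygon.2.1
    have hx1 : G.F n1 x ∈ interior (G.F n1 '' G.p) := by
      rw [← (G.ratio n1).image_interior]
      exact ⟨x, hx, rfl⟩
    have hx2 : G.F n1 (G.F n1 x) ∈ interior (G.F n1 '' (G.F n1 '' G.p)) := by
      rw [← (G.ratio n1).image_interior]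
      exact ⟨_, hx1, rfl⟩
    have hx3 : G.F n1 (G.F n1 x) ∈ interior (G.F n1 '' G.p) :=
      interior_mono (Set.image_mono (hsub n1)) hx2
    have hx4 : G.F n1 (G.F n1 x) ∈ G.F n2 '' G.p := by
      rw [← h1]
      exact interior_subset hx2
    have := (G.disjoint n1 n2 hn12 ⟨interior_subset hx3, hx4⟩).1
    exact this.2 hx3
  -- both are large tiles
  have hbig : ∀ t ∈ T0, Metric.diam t = Real.sqrt 2 * 2 →
      ∃ i j : ℤ, Big i j ∧ t = box (2 * i) (2 * j) 2 := by
    rintro t (h | ⟨a, b, -, rfl⟩) hd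
    · exact h
    · rw [diam_box (by norm_num)] at hd
      exfalso
      linarith
  obtain ⟨i, j, hij, e1⟩ := hbig _ m1 d1
  obtain ⟨i', j', hij', e2⟩ := hbig _ m2 d2
  have hgp : ∀ ρ : Equiv.Perm Plane, ρ '' G.p ⊆ G.p → (g * ρ) '' G.p ⊆ g '' G.p := by
    intro ρ hρ
    rw [mul_image g ρ]
    exact Set.image_mono hρ
  have hc1 : pt (2 * i) (2 * j) ∈ g '' G.p := by
    apply hgp (G.F n1 * G.F n1)
    · rw [mul_image (G.F n1) (G.F n1)]
      exact (Set.image_mono (hsub n1)).trans (hsub n1)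
    · rw [e1]
      exact ⟨⟨by simp, by simp⟩, ⟨by simp, by simp⟩⟩
  have hc2 : pt (2 * i') (2 * j') ∈ g '' G.p := by
    apply hgp (G.F n2) (hsub n2)
    rw [e2]
    exact ⟨⟨by simp, by simp⟩, ⟨by simp, by simp⟩⟩
  have hdist := Metric.dist_le_diam_of_mem (hgr.isBounded G.isCompact_p).isBounded hc1 hc2
  rw [hgr.diam_eq G.isCompact_p, ← hD, hDval] at hdist
  have hdsq := dist_sq (pt (2 * i) (2 * j)) (pt (2 * i') (2 * j'))
  simp only [pt_zero, pt_one] at hdsq
  have h2 : Real.sqrt 2 ^ 2 = 2 := Real.sq_sqrt (by norm_num)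
  have hlt : dist (pt (2 * i) (2 * j)) (pt (2 * i') (2 * j')) ^ 2 ≤ 128 := by
    have h3 : dist (pt (2 * i) (2 * j)) (pt (2 * i') (2 * j')) ^ 2 ≤
        (4 * (Real.sqrt 2 * 2)) ^ 2 := pow_le_pow_left₀ dist_nonneg hdist 2
    calc _ ≤ (4 * (Real.sqrt 2 * 2)) ^ 2 := h3
      _ = 64 * Real.sqrt 2 ^ 2 := by ring
      _ = 128 := by rw [h2]; norm_num
  rw [hdsq] at hlt
  have hlt' : (i - i') ^ 2 + (j - j') ^ 2 ≤ 32 := by
    have : ((i : ℝ) - i') ^ 2 + ((j : ℝ) - j') ^ 2 ≤ 32 := by nlinarith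
    exact_mod_cast this
  obtain ⟨⟨u, hu⟩, ⟨v, hv⟩⟩ := hij
  obtain ⟨⟨u', hu'⟩, ⟨v', hv'⟩⟩ := hij'
  have hu0 : u = u' := by
    by_contra hne'
    have : 1 ≤ (u - u') ^ 2 := by
      have : u - u' ≠ 0 := sub_ne_zero.2 hne'
      have := pow_pos (abs_pos.2 this) 2
      rw [sq_abs] at this
      linarith
    subst hu hu'
    nlinarith [sq_nonneg (j - j')]
  have hv0 : v = v' := by
    by_contra hne'
    have : 1 ≤ (v - v') ^ 2 := by
      have : v - v' ≠ 0 := sub_ne_zero.2 hne'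
      have := pow_pos (abs_pos.2 this) 2
      rw [sq_abs] at this
      linarith
    subst hv hv'
    nlinarith [sq_nonneg (i - i')]
  apply hne
  rw [e1, e2, hu, hu', hv, hv', hu0, hv0]

/-- There is a self-similar polygonal tiling of the plane which is not obtained from any generating
pair. -/
theorem result : ∃ T : Set (Set Plane), SelfSimilarPolygonal T ∧
    ∀ (G : GeneratingPair) (θ : ℕ → Fin G.N), T ≠ G.tiling θ :=
  ⟨T0, T0_polygonal, T0_not⟩

end Pool.Agent.Results.MP_4b3b27_co.NotFromPairs
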